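import Pool.Agent.Y781.SX.LB1
import Pool.Agent.Y953.SX.Ort
import Pool.Agent.Y379.GP.Sp

set_option autoImplicit false

/-! Project SX, job LB: the product of the local densities is rarely small. -/

namespace Pool.Agent.Y781.SX

open Finset Filter Topology MeasureTheory Complex
open Pool.Agent.Y969.GP (ff ht lam FR PX cr V mB PS)
open Pool.Agent.Y969.SM

noncomputable section

/-- the pair of an exponent -/
def pq (p : ℕ) (m : ℤ) : ℕ × ℕ := if m = 1 then (1, p) else if m = -1 then (p, 1) else (1, 1)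

lemma lam_pq (p : ℕ) {m : ℤ} (hm : m = -1 ∨ m = 0 ∨ m = 1) : lam (pq p m) = Real.log p * m := by
  rcases hm with rfl | rfl | rfl <;> simp [pq, lam]

lemma pq_mem {p Z : ℕ} (h1 : 1 ≤ p) (h2 : p ≤ Z) (m : ℤ) : pq p m ∈ FR Z := by
  have hZ : 1 ≤ Z := h1.trans h2
  unfold pq FR PS
  split_ifs <;> simp [h1, h2, hZ]

lemma pq_inj {p p' : ℕ} (hp : 2 ≤ p) (hp' : 2 ≤ p') {m m' : ℤ} (hm : m = -1 ∨ m = 0 ∨ m = 1)
    (hm' : m' = -1 ∨ m' = 0 ∨ m' = 1) (h : pq p m = pq p' m') : m = m' ∧ (m ≠ 0 → p = p') := by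
  rcases hm with rfl | rfl | rfl <;> rcases hm' with rfl | rfl | rfl <;> simp [pq] at h ⊢ <;> omega

/-- the tuple of an exponent vector -/
def Qm {n : ℕ} (t : ℕ × (Fin n → ℤ)) : Fin n → ℕ × ℕ := fun j => pq t.1 (t.2 j)

/-- the primes up to `y` -/
def Py' (y : ℝ) : Finset ℕ := (Finset.range (⌊y⌋₊ + 1)).filter Nat.Prime

/-- the index set -/
def TT (n : ℕ) (y : ℝ) : Finset (ℕ × (Fin n → ℤ)) := Py' y ×ˢ K2 n

lemma mem_TT {n : ℕ} {y : ℝ} {t : ℕ × (Fin n → ℤ)} (h : t ∈ TT n y) :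
    t.1.Prime ∧ t.1 ≤ ⌊y⌋₊ ∧ t.2 ∈ K2 n := by
  unfold TT Py' at h
  rw [Finset.mem_product, Finset.mem_filter, Finset.mem_range] at h
  exact ⟨h.1.2, by omega, h.2⟩

lemma Qm_mem {n : ℕ} {y : ℝ} {t : ℕ × (Fin n → ℤ)} (h : t ∈ TT n y) :
    Qm t ∈ Fintype.piFinset (fun _ : Fin n => FR ⌊y⌋₊) := by
  obtain ⟨h1, h2, h3⟩ := mem_TT h
  rw [Fintype.mem_piFinset]
  exact fun j => pq_mem h1.one_lt.le h2 _

lemma Qm_inj {n : ℕ} {y : ℝ} {t t' : ℕ × (Fin n → ℤ)} (h : t ∈ TT n y) (h' : t' ∈ TT n y)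
    (he : Qm t = Qm t') : t = t' := by
  obtain ⟨h1, h2, h3⟩ := mem_TT h
  obtain ⟨h1', h2', h3'⟩ := mem_TT h'
  have hj : ∀ j, t.2 j = t'.2 j ∧ (t.2 j ≠ 0 → t.1 = t'.1) := fun j =>
    pq_inj h1.two_le h1'.two_le (K2_abs h3 j) (K2_abs h3' j) (congrFun he j)
  have hne : t.2 ≠ 0 := by
    intro h0
    have := mem_K2.mp h3
    rw [h0] at this
    simp [kx] at this
  obtain ⟨j, hj0⟩ := Function.ne_iff.mp hne
  exact Prod.ext ((hj j).2 hj0) (funext fun i => (hj i).1)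

/-- the exponential of a tuple -/
def EE {n : ℕ} (q : Fin n → ℕ × ℕ) (c : Fin n → ℝ) : ℂ := ∏ j, cexp (I * ((c j * lam (q j) : ℝ) : ℂ))

lemma EE_cont {n : ℕ} (q : Fin n → ℕ × ℕ) : Continuous (EE q) := by
  unfold EE
  refine continuous_finsetProd _ fun j _ => ?_
  fun_prop

lemma EE_re {n : ℕ} {y : ℝ} {t : ℕ × (Fin n → ℤ)} (h : t ∈ TT n y) (c : Fin n → ℝ) :
    (EE (Qm t) c).re = Real.cos (fr t.1 t.2 c) := by
  obtain ⟨h1, h2, h3⟩ := mem_TT h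
  unfold EE
  rw [← Complex.exp_sum]
  have e : ∑ j, I * ((c j * lam (Qm t j) : ℝ) : ℂ) = ((fr t.1 t.2 c : ℝ) : ℂ) * I := by
    unfold fr
    push_cast
    rw [Finset.sum_mul]
    refine Finset.sum_congr rfl fun j _ => ?_
    have := lam_pq t.1 (K2_abs h3 j)
    unfold Qm
    rw [this]
    push_cast
    ring
  rw [e, Complex.exp_ofReal_mul_I_re]

/-- the trigonometric polynomial -/
def ZZ {n : ℕ} (y : ℝ) (c : Fin n → ℝ) : ℂ := ∑ t ∈ TT n y, (lc t.1 t.2 : ℂ) * EE (Qm t) c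

lemma ZZ_cont {n : ℕ} (y : ℝ) : Continuous (ZZ (n := n) y) := by
  unfold ZZ
  exact continuous_finsetSum _ fun t _ => continuous_const.mul (EE_cont _)

lemma ZZ_re {n : ℕ} (y : ℝ) (c : Fin n → ℝ) : (ZZ y c).re = ∑ p ∈ Py' y, Ap p c := by
  unfold ZZ Ap
  rw [Complex.re_sum, TT, Finset.sum_product]
  refine Finset.sum_congr rfl fun p hp => Finset.sum_congr rfl fun k hk => ?_
  rw [Complex.re_ofReal_mul, EE_re (t := (p, k)) (y := y) (Finset.mem_product.mpr ⟨hp, hk⟩)]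

lemma sum_inv_sq (y : ℝ) : ∑ p ∈ Py' y, 1 / (p : ℝ) ^ 2 ≤ 1 := by
  have h1 : Py' y ⊆ Finset.Ioo 1 (⌊y⌋₊ + 1) := by
    intro p hp
    unfold Py' at hp
    rw [Finset.mem_filter, Finset.mem_range] at hp
    rw [Finset.mem_Ioo]
    exact ⟨hp.2.one_lt, hp.1⟩
  calc ∑ p ∈ Py' y, 1 / (p : ℝ) ^ 2 ≤ ∑ p ∈ Finset.Ioo 1 (⌊y⌋₊ + 1), 1 / (p : ℝ) ^ 2 :=
        Finset.sum_le_sum_of_subset_of_nonneg h1 fun _ _ _ => by positivity
    _ = ∑ p ∈ Finset.Ioo 1 (⌊y⌋₊ + 1), ((p : ℝ) ^ 2)⁻¹ := by simp only [one_div]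
    _ ≤ 2 / (((1 : ℕ) : ℝ) + 1) := sum_Ioo_inv_sq_le 1 (⌊y⌋₊ + 1)
    _ = 1 := by norm_num

open Classical in
/-- the coefficients -/
def aa {n : ℕ} (y : ℝ) (q : Fin n → ℕ × ℕ) : ℂ :=
  ∑ t ∈ TT n y, if Qm t = q then (lc t.1 t.2 : ℂ) else 0

lemma ZZ_eq {n : ℕ} (y : ℝ) (c : Fin n → ℝ) :
    ZZ y c = ∑ q ∈ Fintype.piFinset (fun _ : Fin n => FR ⌊y⌋₊), aa y q * EE q c := by
  classical
  unfold ZZ aa
  simp only [Finset.sum_mul]
  rw [Finset.sum_comm]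
  refine Finset.sum_congr rfl fun t ht => ?_
  rw [Finset.sum_eq_single (Qm t)]
  · rw [if_pos rfl]
  · intro q _ hq
    rw [if_neg (Ne.symm hq), zero_mul]
  · intro h
    exact absurd (Qm_mem ht) h

lemma aa_sq {n : ℕ} (y : ℝ) (q : Fin n → ℕ × ℕ) [DecidableEq (Fin n → ℕ × ℕ)] :
    ‖aa y q‖ ^ 2 ≤ ∑ t ∈ TT n y, if Qm t = q then (lc t.1 t.2) ^ 2 else 0 := by
  unfold aa
  by_cases h : ∃ t0 ∈ TT n y, Qm t0 = q
  · obtain ⟨t0, ht0, rfl⟩ := h
    rw [Finset.sum_eq_single t0, Finset.sum_eq_single t0, if_pos rfl, if_pos rfl, Complex.norm_real,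
      Real.norm_eq_abs, sq_abs]
    · intro t ht hne
      rw [if_neg fun he => hne (Qm_inj ht ht0 he)]
    · intro h; exact absurd ht0 h
    · intro t ht hne
      rw [if_neg fun he => hne (Qm_inj ht ht0 he)]
    · intro h; exact absurd ht0 h
  · push Not at h
    have e2 : (∑ t ∈ TT n y, if Qm t = q then (lc t.1 t.2) ^ 2 else 0) = 0 :=
      Finset.sum_eq_zero fun t ht => if_neg (h t ht)
    rw [e2]
    refine le_of_eq ?_
    rw [sq_eq_zero_iff, norm_eq_zero]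
    exact Finset.sum_eq_zero fun t ht => if_neg (h t ht)

lemma aa_sum {n : ℕ} (y : ℝ) :
    ∑ q ∈ Fintype.piFinset (fun _ : Fin n => FR ⌊y⌋₊), ‖aa y q‖ ^ 2 ≤ 9 * (K2 n).card := by
  classical
  calc ∑ q ∈ Fintype.piFinset (fun _ : Fin n => FR ⌊y⌋₊), ‖aa y q‖ ^ 2
      ≤ ∑ q ∈ Fintype.piFinset (fun _ : Fin n => FR ⌊y⌋₊), ∑ t ∈ TT n y,
          (if Qm t = q then (lc t.1 t.2) ^ 2 else 0) := Finset.sum_le_sum fun q _ => aa_sq y q
    _ = ∑ t ∈ TT n y, ∑ q ∈ Fintype.piFinset (fun _ : Fin n => FR ⌊y⌋₊),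
          (if Qm t = q then (lc t.1 t.2) ^ 2 else 0) := Finset.sum_comm
    _ ≤ ∑ t ∈ TT n y, 9 * (1 / (t.1 : ℝ) ^ 2) := by
        refine Finset.sum_le_sum fun t ht => ?_
        obtain ⟨h1, h2, h3⟩ := mem_TT ht
        rw [Finset.sum_ite_eq, if_pos (Qm_mem ht)]
        have h4 := lc_K2 h1 h3
        have h5 := lc_nonneg h1 t.2
        calc (lc t.1 t.2) ^ 2 ≤ (3 / (t.1 : ℝ)) ^ 2 := pow_le_pow_left₀ h5 h4 2
          _ = 9 * (1 / (t.1 : ℝ) ^ 2) := by ring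
    _ = 9 * ((K2 n).card * ∑ p ∈ Py' y, 1 / (p : ℝ) ^ 2) := by
        unfold TT
        rw [Finset.sum_product, Finset.mul_sum, Finset.mul_sum]
        refine Finset.sum_congr rfl fun p _ => ?_
        change ∑ _x ∈ K2 n, 9 * (1 / (p : ℝ) ^ 2) = _
        rw [Finset.sum_const, nsmul_eq_mul]
        ring
    _ ≤ 9 * ((K2 n).card * 1) := by
        apply mul_le_mul_of_nonneg_left _ (by norm_num)
        exact mul_le_mul_of_nonneg_left (sum_inv_sq y) (Nat.cast_nonneg _)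
    _ = 9 * (K2 n).card := by ring

lemma ms (h : S_ORT) (n : ℕ) {U : ℝ} (hU : 1 ≤ Real.log U) (h2 : 4 * Real.log U ^ (2 * n + 1) ≤ U)
    (hU0 : 0 ≤ U) :
    ∫ c, ‖ZZ (n := n) (Real.log U) c‖ ^ 2 ∂(mB n 0 U) ≤ 18 * (K2 n).card * U ^ n := by
  have hZ1 : 1 ≤ ⌊Real.log U⌋₊ := by
    rw [Nat.one_le_floor_iff]
    exact hU
  have hZ2 : (⌊Real.log U⌋₊ : ℝ) ≤ Real.log U := Nat.floor_le (by linarith)
  have h3 : 4 * (⌊Real.log U⌋₊ : ℝ) ^ (2 * n + 1) ≤ U := by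
    refine le_trans ?_ h2
    have := pow_le_pow_left₀ (Nat.cast_nonneg _) hZ2 (2 * n + 1)
    linarith
  have h4 := h n ⌊Real.log U⌋₊ U (aa (Real.log U)) hZ1 h3
  have e : ∀ c : Fin n → ℝ, ZZ (Real.log U) c =
      ∑ q ∈ Fintype.piFinset (fun _ : Fin n => FR ⌊Real.log U⌋₊), aa (Real.log U) q *
        ∏ j, cexp (I * ((c j * lam (q j) : ℝ) : ℂ)) := fun c => ZZ_eq _ c
  simp only [e]
  refine h4.trans ?_
  have h5 := aa_sum (n := n) (Real.log U)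
  have h6 : 0 ≤ 2 * U ^ n := by positivity
  calc 2 * U ^ n * ∑ q ∈ Fintype.piFinset (fun _ : Fin n => FR ⌊Real.log U⌋₊), ‖aa (Real.log U) q‖ ^ 2
      ≤ 2 * U ^ n * (9 * (K2 n).card) := mul_le_mul_of_nonneg_left h5 h6
    _ = 18 * (K2 n).card * U ^ n := by ring

/-- **LB with the near orthogonality as a hypothesis** -/
theorem t_LB0 (h : S_LOC) (ho : S_ORT) : S_LB := by
  intro n ε hε
  obtain ⟨C1, hC1, hexp⟩ := loc_exp h n
  set κ : ℝ := ((K2 n).card : ℝ) with hκ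
  have hκ0 : 0 ≤ κ := Nat.cast_nonneg _
  set M2 : ℝ := 18 * κ / ε + 1 with hM2
  have hM2' : 0 < M2 := by positivity
  set M : ℝ := Real.sqrt M2 with hM
  have hM0 : 0 ≤ M := Real.sqrt_nonneg _
  have hMsq : M ^ 2 = M2 := Real.sq_sqrt hM2'.le
  refine ⟨Real.exp (-M - C1), Real.exp_pos _, ?_⟩
  have hlog : ∀ᶠ U : ℝ in atTop, 4 * Real.log U ^ (2 * n + 1) ≤ U := by
    have h1 := (Real.isLittleO_pow_log_id_atTop (n := 2 * n + 1)).bound (c := 1 / 4) (by norm_num)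
    filter_upwards [h1, eventually_gt_atTop (0 : ℝ)] with U hU hU0
    rw [Real.norm_eq_abs, Real.norm_eq_abs, id, abs_of_pos hU0] at hU
    have := le_abs_self (Real.log U ^ (2 * n + 1))
    linarith
  filter_upwards [hlog, Real.tendsto_log_atTop.eventually_ge_atTop 1,
    eventually_gt_atTop (0 : ℝ)] with U h1 h2 h3
  have hms := ms ho n h2 h1 h3.le
  rw [← hκ] at hms
  -- the lower bound for the product
  have hlow : ∀ c : Fin n → ℝ, Real.exp ((ZZ (Real.log U) c).re - C1) ≤ SS (Real.log U) c := by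
    intro c
    have e1 : SS (Real.log U) c = ∏ p ∈ Py' (Real.log U), loc c p := rfl
    rw [e1]
    calc Real.exp ((ZZ (Real.log U) c).re - C1)
        ≤ Real.exp (∑ p ∈ Py' (Real.log U), (Ap p c - C1 / (p : ℝ) ^ 2)) := by
          apply Real.exp_le_exp.mpr
          rw [Finset.sum_sub_distrib, ZZ_re]
          have : ∑ p ∈ Py' (Real.log U), C1 / (p : ℝ) ^ 2 ≤ C1 := by
            have e2 : ∑ p ∈ Py' (Real.log U), C1 / (p : ℝ) ^ 2 =
                C1 * ∑ p ∈ Py' (Real.log U), 1 / (p : ℝ) ^ 2 := by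
              rw [Finset.mul_sum]
              exact Finset.sum_congr rfl fun p _ => by ring
            rw [e2]
            calc C1 * ∑ p ∈ Py' (Real.log U), 1 / (p : ℝ) ^ 2 ≤ C1 * 1 :=
                  mul_le_mul_of_nonneg_left (sum_inv_sq _) hC1
              _ = C1 := mul_one _
          linarith
      _ = ∏ p ∈ Py' (Real.log U), Real.exp (Ap p c - C1 / (p : ℝ) ^ 2) := Real.exp_sum _ _
      _ ≤ ∏ p ∈ Py' (Real.log U), loc c p := by
          refine Finset.prod_le_prod (fun p _ => (Real.exp_pos _).le) fun p hp => ?_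
          unfold Py' at hp
          rw [Finset.mem_filter] at hp
          exact hexp p hp.2 c
  -- the exceptional set
  have hsub : {c : Fin n → ℝ | SS (Real.log U) c ≤ Real.exp (-M - C1)} ⊆
      {c | M2 ≤ ‖ZZ (n := n) (Real.log U) c‖ ^ 2} := by
    intro c hc
    have h4 : Real.exp ((ZZ (Real.log U) c).re - C1) ≤ Real.exp (-M - C1) := (hlow c).trans hc
    have h5 := Real.exp_le_exp.mp h4
    have h6 : M ≤ |(ZZ (Real.log U) c).re| := by
      have := neg_abs_le (ZZ (Real.log U) c).re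
      linarith
    have h7 : M ≤ ‖ZZ (Real.log U) c‖ := h6.trans (Complex.abs_re_le_norm _)
    have h8 : M ^ 2 ≤ ‖ZZ (Real.log U) c‖ ^ 2 := pow_le_pow_left₀ hM0 h7 2
    rw [hMsq] at h8
    exact h8
  have hint : Integrable (fun c : Fin n → ℝ => ‖ZZ (n := n) (Real.log U) c‖ ^ 2) (mB n 0 U) :=
    mB_int ((ZZ_cont _).norm.pow 2) 0 U
  have hch := mul_meas_ge_le_integral_of_nonneg (μ := mB n 0 U)
    (Filter.Eventually.of_forall fun c => sq_nonneg ‖ZZ (n := n) (Real.log U) c‖) hint M2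
  have hmono : (mB n 0 U).real {c : Fin n → ℝ | SS (Real.log U) c ≤ Real.exp (-M - C1)} ≤
      (mB n 0 U).real {c | M2 ≤ ‖ZZ (n := n) (Real.log U) c‖ ^ 2} := measureReal_mono hsub
  refine hmono.trans ?_
  have h9 : M2 * (mB n 0 U).real {c | M2 ≤ ‖ZZ (n := n) (Real.log U) c‖ ^ 2} ≤ 18 * κ * U ^ n :=
    hch.trans hms
  have h10 : 18 * κ ≤ M2 * ε := by
    rw [hM2]
    have : (18 * κ / ε + 1) * ε = 18 * κ + ε := by field_simp
    rw [this]
    linarith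
  have h11 : 18 * κ * U ^ n ≤ M2 * (ε * U ^ n) := by
    calc 18 * κ * U ^ n ≤ M2 * ε * U ^ n := mul_le_mul_of_nonneg_right h10 (by positivity)
      _ = M2 * (ε * U ^ n) := by ring
  exact le_of_mul_le_mul_left (h9.trans h11) hM2'

/-- **LB.** The product of the local densities is rarely small. -/
theorem t_LB (h : S_LOC) : S_LB := t_LB0 h (Pool.Agent.Y953.SX.t_ORT Pool.Agent.Y379.GP.t_SP)

end

end Pool.Agent.Y781.SX
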