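import Pool.Agent.Y969.SM.Stm3
import Pool.Agent.Y969.SM.Bas

set_option autoImplicit false

/-! Project SX, job LB (part 1): lower bound for the local density. -/

namespace Pool.Agent.Y781.SX

open Finset Filter Topology MeasureTheory Complex
open Pool.Agent.Y969.GP (ff ht lam FR PX cr V mB)
open Pool.Agent.Y969.SM

noncomputable section

/-- the exponents of size two -/
def K2 (n : ℕ) : Finset (Fin n → ℤ) :=
  (Fintype.piFinset fun _ => Finset.Icc (-1 : ℤ) 1).filter (fun k => kx k = 2)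

lemma kx_cast {n : ℕ} (k : Fin n → ℤ) : ((kx k : ℕ) : ℤ) = (∑ j, |k j|) + |∑ j, k j| := by
  unfold kx
  push_cast
  rfl

lemma two_abs_le {n : ℕ} (k : Fin n → ℤ) (j : Fin n) : 2 * |k j| ≤ ((kx k : ℕ) : ℤ) := by
  rw [kx_cast]
  have h1 : ∑ i, |k i| = |k j| + ∑ i ∈ Finset.univ.erase j, |k i| :=
    (Finset.add_sum_erase _ _ (Finset.mem_univ j)).symm
  have h2 : ∑ i, k i = k j + ∑ i ∈ Finset.univ.erase j, k i :=
    (Finset.add_sum_erase _ _ (Finset.mem_univ j)).symm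
  have h3 : |∑ i ∈ Finset.univ.erase j, k i| ≤ ∑ i ∈ Finset.univ.erase j, |k i| :=
    Finset.abs_sum_le_sum_abs _ _
  have h4 : |k j| ≤ |∑ i, k i| + |∑ i ∈ Finset.univ.erase j, k i| := by
    have : k j = ∑ i, k i - ∑ i ∈ Finset.univ.erase j, k i := by rw [h2]; ring
    calc |k j| = |∑ i, k i - ∑ i ∈ Finset.univ.erase j, k i| := by rw [← this]
      _ ≤ _ := abs_sub _ _
  rw [h1]
  linarith

lemma mem_K2 {n : ℕ} {k : Fin n → ℤ} : k ∈ K2 n ↔ kx k = 2 := by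
  unfold K2
  rw [Finset.mem_filter]
  constructor
  · exact fun h => h.2
  · intro h
    refine ⟨?_, h⟩
    rw [Fintype.mem_piFinset]
    intro j
    have h1 := two_abs_le k j
    rw [h] at h1
    have h2 : |k j| ≤ 1 := by
      push_cast at h1
      linarith
    rw [Finset.mem_Icc]
    exact abs_le.mp h2

lemma K2_abs {n : ℕ} {k : Fin n → ℤ} (hk : k ∈ K2 n) (j : Fin n) : k j = -1 ∨ k j = 0 ∨ k j = 1 := by
  unfold K2 at hk
  rw [Finset.mem_filter, Fintype.mem_piFinset] at hk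
  have := hk.1 j
  rw [Finset.mem_Icc] at this
  omega

lemma kx_zero {n : ℕ} {k : Fin n → ℤ} (h : kx k = 0) : k = 0 := by
  funext j
  have h1 := two_abs_le k j
  rw [h] at h1
  have h2 : |k j| ≤ 0 := by
    push_cast at h1
    linarith
  exact abs_nonpos_iff.mp h2

lemma parity {n : ℕ} (k : Fin n → ℤ) : (∑ j, (k j).natAbs) % 2 = (∑ j, k j).natAbs % 2 := by
  have h1 : ∀ m : ℤ, (m.natAbs : ZMod 2) = (m : ZMod 2) := by
    intro m
    rcases Int.natAbs_eq m with h | h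
    · conv_rhs => rw [h]
      simp
    · conv_rhs => rw [h]
      rw [Int.cast_neg, Int.cast_natCast, ZMod.neg_eq_self_mod_two]
  have h2 : ((∑ j, (k j).natAbs : ℕ) : ZMod 2) = (((∑ j, k j).natAbs : ℕ) : ZMod 2) := by
    rw [h1]
    push_cast
    exact sum_congr rfl fun j _ => h1 (k j)
  exact (ZMod.natCast_eq_natCast_iff _ _ 2).1 h2

lemma kx_four {n : ℕ} {k : Fin n → ℤ} (h0 : k ≠ 0) (h2 : k ∉ K2 n) : 4 ≤ kx k := by
  have h1 := parity k
  have h3 : kx k ≠ 0 := fun h => h0 (kx_zero h)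
  have h4 : kx k ≠ 2 := fun h => h2 (mem_K2.mpr h)
  have h5 : kx k = (∑ j, (k j).natAbs) + (∑ j, k j).natAbs := rfl
  omega

lemma rat_bd {p : ℕ} (hp : p.Prime) : 0 ≤ ((p : ℝ) - 1) / ((p : ℝ) + 1) ∧
    ((p : ℝ) - 1) / ((p : ℝ) + 1) ≤ 1 := by
  have hp1 : (1 : ℝ) ≤ p := by exact_mod_cast hp.one_lt.le
  refine ⟨div_nonneg (by linarith) (by linarith), ?_⟩
  rw [div_le_one (by linarith)]
  linarith

lemma lc_nonneg {n p : ℕ} (hp : p.Prime) (k : Fin n → ℤ) : 0 ≤ lc p k := by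
  unfold lc
  have h := (rat_bd hp).1
  positivity

lemma lc_zero {n p : ℕ} : lc p (0 : Fin n → ℤ) = 1 := by
  simp [lc, kx]

lemma lc_K2 {n p : ℕ} (hp : p.Prime) {k : Fin n → ℤ} (hk : k ∈ K2 n) : lc p k ≤ 3 / p := by
  have hp0 : (0 : ℝ) < p := by exact_mod_cast hp.pos
  have h2 := mem_K2.mp hk
  unfold lc
  rw [h2]
  have h3 : (∑ j, k j).natAbs ≤ 2 := by
    have : kx k = (∑ j, (k j).natAbs) + (∑ j, k j).natAbs := rfl
    omega
  have h4 : ((∑ j, k j).natAbs : ℝ) ≤ 2 := by exact_mod_cast h3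
  have h5 := rat_bd hp
  have h6 : (p : ℝ) ^ (-(((2 : ℕ) : ℝ) / 2)) = 1 / p := by
    rw [show (-(((2 : ℕ) : ℝ) / 2)) = (-1 : ℝ) by norm_num, Real.rpow_neg_one, one_div]
  rw [h6, div_mul_eq_mul_div, one_mul]
  apply div_le_div_of_nonneg_right _ hp0.le
  have : ((∑ j, k j).natAbs : ℝ) * (((p:ℝ) - 1) / ((p:ℝ) + 1)) ≤ 2 * 1 :=
    mul_le_mul h4 h5.2 h5.1 (by norm_num)
  linarith

lemma lc_tail {n p : ℕ} (hp : p.Prime) {k : Fin n → ℤ} (hk : 4 ≤ kx k) :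
    lc p k ≤ 12 / (p : ℝ) ^ 2 * lc 2 k := by
  have hp0 : (0 : ℝ) < p := by exact_mod_cast hp.pos
  have hp2 : (2 : ℝ) ≤ p := by exact_mod_cast hp.two_le
  have h5 := rat_bd hp
  set S : ℝ := ((∑ j, k j).natAbs : ℝ) with hS
  have hS0 : 0 ≤ S := Nat.cast_nonneg _
  have h1 : 1 + S * (((p:ℝ) - 1) / ((p:ℝ) + 1)) ≤ 3 * (1 + S * ((((2 : ℕ) : ℝ) - 1) / (((2 : ℕ) : ℝ) + 1))) := by
    have : S * (((p:ℝ) - 1) / ((p:ℝ) + 1)) ≤ S * 1 := mul_le_mul_of_nonneg_left h5.2 hS0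
    push_cast
    have e : ((2 : ℝ) - 1) / (2 + 1) = 1 / 3 := by norm_num
    rw [e]
    linarith
  have hK : (2 : ℝ) ≤ (kx k : ℝ) / 2 := by
    have : (4 : ℝ) ≤ kx k := by exact_mod_cast hk
    linarith
  have h2 : (p : ℝ) ^ (-((kx k : ℝ) / 2)) ≤ 4 / (p : ℝ) ^ 2 * ((2 : ℕ) : ℝ) ^ (-((kx k : ℝ) / 2)) := by
    have e1 : (p : ℝ) = (p / 2) * 2 := by ring
    have e2 : (p : ℝ) ^ (-((kx k : ℝ) / 2)) = (p / 2 : ℝ) ^ (-((kx k : ℝ) / 2)) * 2 ^ (-((kx k : ℝ) / 2)) := by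
      conv_lhs => rw [e1]
      rw [Real.mul_rpow (by positivity) (by norm_num)]
    have e3 : (p / 2 : ℝ) ^ (-((kx k : ℝ) / 2)) ≤ (p / 2 : ℝ) ^ (-2 : ℝ) :=
      Real.rpow_le_rpow_of_exponent_le (by linarith) (by linarith)
    have e4 : (p / 2 : ℝ) ^ (-2 : ℝ) = 4 / (p : ℝ) ^ 2 := by
      rw [Real.rpow_neg (by positivity), show (2 : ℝ) = ((2 : ℕ) : ℝ) by norm_num, Real.rpow_natCast]
      push_cast
      field_simp
      norm_num
    rw [e2, ← e4]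
    push_cast
    exact mul_le_mul_of_nonneg_right e3 (by positivity)
  unfold lc
  calc (p : ℝ) ^ (-((kx k : ℝ) / 2)) * (1 + S * (((p:ℝ) - 1) / ((p:ℝ) + 1)))
      ≤ (4 / (p : ℝ) ^ 2 * ((2 : ℕ) : ℝ) ^ (-((kx k : ℝ) / 2))) *
        (3 * (1 + S * ((((2 : ℕ) : ℝ) - 1) / (((2 : ℕ) : ℝ) + 1)))) := by
        apply mul_le_mul h2 h1 (by have := h5.1; positivity) (by positivity)
    _ = 12 / (p : ℝ) ^ 2 * (((2 : ℕ) : ℝ) ^ (-((kx k : ℝ) / 2)) *
        (1 + S * ((((2 : ℕ) : ℝ) - 1) / (((2 : ℕ) : ℝ) + 1)))) := by ring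

/-- the frequency -/
def fr {n : ℕ} (p : ℕ) (k : Fin n → ℤ) (c : Fin n → ℝ) : ℝ := ∑ j, c j * Real.log p * k j

lemma term_re {n : ℕ} (p : ℕ) (k : Fin n → ℤ) (c : Fin n → ℝ) :
    ((lc p k : ℂ) * ∏ j, cexp (-(I * ((c j * Real.log p * k j : ℝ) : ℂ)))).re
      = lc p k * Real.cos (fr p k c) := by
  rw [← Complex.exp_sum]
  have e : ∑ j, -(I * ((c j * Real.log p * k j : ℝ) : ℂ)) = ((-(fr p k c) : ℝ) : ℂ) * I := by
    unfold fr
    push_cast
    rw [Finset.sum_neg_distrib, ← Finset.mul_sum]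
    ring
  rw [e, Complex.re_ofReal_mul, Complex.exp_ofReal_mul_I_re, Real.cos_neg]

lemma term_norm {n : ℕ} {p : ℕ} (hp : p.Prime) (k : Fin n → ℤ) (c : Fin n → ℝ) :
    ‖(lc p k : ℂ) * ∏ j, cexp (-(I * ((c j * Real.log p * k j : ℝ) : ℂ)))‖ = lc p k := by
  rw [← Complex.exp_sum]
  have e : ∑ j, -(I * ((c j * Real.log p * k j : ℝ) : ℂ)) = ((-(fr p k c) : ℝ) : ℂ) * I := by
    unfold fr
    push_cast
    rw [Finset.sum_neg_distrib, ← Finset.mul_sum]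
    ring
  rw [e, norm_mul, Complex.norm_exp_ofReal_mul_I, mul_one, Complex.norm_real, Real.norm_eq_abs,
    abs_of_nonneg (lc_nonneg hp k)]

lemma loc_re (h : S_LOC) {n p : ℕ} (hp : p.Prime) (c : Fin n → ℝ) :
    loc c p = (1 - 1 / (p : ℝ) ^ 2) * ∑' k : Fin n → ℤ, lc p k * Real.cos (fr p k c) := by
  obtain ⟨hs, he⟩ := h n p hp c
  have h1 := congrArg Complex.re he
  rw [Complex.ofReal_re] at h1
  rw [h1]
  have e : (1 - 1 / (p : ℂ) ^ 2) = (((1 - 1 / (p : ℝ) ^ 2) : ℝ) : ℂ) := by push_cast; ring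
  rw [e, Complex.re_ofReal_mul, Complex.re_tsum]
  · congr 1
    exact tsum_congr fun k => term_re p k c
  · refine Summable.of_norm ?_
    simp only [term_norm hp]
    exact hs

/-- the terms of size `1/p` -/
def Ap {n : ℕ} (p : ℕ) (c : Fin n → ℝ) : ℝ := ∑ k ∈ K2 n, lc p k * Real.cos (fr p k c)

lemma Ap_bd {n p : ℕ} (hp : p.Prime) (c : Fin n → ℝ) : |Ap p c| ≤ (K2 n).card * (3 / p) := by
  unfold Ap
  refine (Finset.abs_sum_le_sum_abs _ _).trans ?_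
  rw [← nsmul_eq_mul]
  refine Finset.sum_le_card_nsmul _ _ _ fun k hk => ?_
  rw [abs_mul, abs_of_nonneg (lc_nonneg hp k)]
  calc lc p k * |Real.cos (fr p k c)| ≤ lc p k * 1 :=
        mul_le_mul_of_nonneg_left (Real.abs_cos_le_one _) (lc_nonneg hp k)
    _ ≤ 3 / p := by rw [mul_one]; exact lc_K2 hp hk

/-- the constant of the tail -/
def C0 (n : ℕ) : ℝ := 12 * ∑' k : Fin n → ℤ, lc 2 k

lemma C0_nonneg (n : ℕ) : 0 ≤ C0 n :=
  mul_nonneg (by norm_num) (tsum_nonneg fun k => lc_nonneg Nat.prime_two k)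

lemma loc_low (h : S_LOC) {n p : ℕ} (hp : p.Prime) (c : Fin n → ℝ) :
    (1 - 1 / (p : ℝ) ^ 2) * (1 + Ap p c - C0 n / (p : ℝ) ^ 2) ≤ loc c p := by
  classical
  have hp0 : (0 : ℝ) < p := by exact_mod_cast hp.pos
  have hp1 : (1 : ℝ) ≤ p := by exact_mod_cast hp.one_lt.le
  rw [loc_re h hp c]
  apply mul_le_mul_of_nonneg_left
  · set g : (Fin n → ℤ) → ℝ := fun k => lc p k * Real.cos (fr p k c) with hg
    have hs2 : Summable fun k : Fin n → ℤ => lc 2 k := (h n 2 Nat.prime_two 0).1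
    have hsp : Summable fun k : Fin n → ℤ => lc p k := (h n p hp 0).1
    have hgb : ∀ k, |g k| ≤ lc p k := by
      intro k
      rw [hg]
      simp only
      rw [abs_mul, abs_of_nonneg (lc_nonneg hp k)]
      calc lc p k * |Real.cos (fr p k c)| ≤ lc p k * 1 :=
            mul_le_mul_of_nonneg_left (Real.abs_cos_le_one _) (lc_nonneg hp k)
        _ = lc p k := mul_one _
    have hsg : Summable g := Summable.of_norm_bounded hsp hgb
    set F : Finset (Fin n → ℤ) := insert 0 (K2 n) with hF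
    have h0 : (0 : Fin n → ℤ) ∉ K2 n := by
      rw [mem_K2]
      simp [kx]
    have hsF : Summable fun k => if k ∈ F then g k else 0 :=
      summable_of_ne_finset_zero (s := F) fun k hk => if_neg hk
    have hsR : Summable fun k : Fin n → ℤ => 12 / (p : ℝ) ^ 2 * lc 2 k := hs2.mul_left _
    have hle : ∑' k, ((if k ∈ F then g k else 0) - 12 / (p : ℝ) ^ 2 * lc 2 k) ≤ ∑' k, g k := by
      refine Summable.tsum_le_tsum (fun k => ?_) (hsF.sub hsR) hsg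
      have hl2 := lc_nonneg Nat.prime_two k
      split_ifs with hk
      · have : 0 ≤ 12 / (p : ℝ) ^ 2 * lc 2 k := by positivity
        linarith
      · rw [hF, Finset.mem_insert, not_or] at hk
        have h4 := lc_tail hp (kx_four hk.1 hk.2)
        have h5 := (abs_le.mp (hgb k)).1
        linarith
    rw [Summable.tsum_sub hsF hsR, tsum_mul_left, tsum_eq_sum (s := F) (fun k hk => if_neg hk),
      Finset.sum_congr rfl (fun k hk => if_pos hk), hF, Finset.sum_insert h0] at hle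
    have hg0 : lc p (0 : Fin n → ℤ) * Real.cos (fr p (0 : Fin n → ℤ) c) = 1 := by
      simp [lc_zero, fr]
    rw [hg0] at hle
    have e : C0 n / (p : ℝ) ^ 2 = 12 / (p : ℝ) ^ 2 * ∑' k : Fin n → ℤ, lc 2 k := by
      unfold C0; ring
    rw [e]
    exact hle
  · rw [sub_nonneg, div_le_one (by positivity)]
    exact one_le_pow₀ hp1

lemma exp_low {x : ℝ} (hx : -(1 / 2) ≤ x) : Real.exp (x - 2 * x ^ 2) ≤ 1 + x := by
  have h1 : 0 < 1 - x + 2 * x ^ 2 := by nlinarith [sq_nonneg (x - 1 / 4)]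
  have h2 : 1 - x + 2 * x ^ 2 ≤ Real.exp (-(x - 2 * x ^ 2)) := by
    have := Real.add_one_le_exp (-(x - 2 * x ^ 2))
    linarith
  have h3 : Real.exp (x - 2 * x ^ 2) * Real.exp (-(x - 2 * x ^ 2)) = 1 := by
    rw [← Real.exp_add, add_neg_cancel, Real.exp_zero]
  have h4 : Real.exp (x - 2 * x ^ 2) * (1 - x + 2 * x ^ 2) ≤ 1 :=
    (mul_le_mul_of_nonneg_left h2 (Real.exp_pos _).le).trans h3.le
  have h5 : 1 ≤ (1 + x) * (1 - x + 2 * x ^ 2) := by
    have : 0 ≤ x ^ 2 * (1 + 2 * x) := mul_nonneg (sq_nonneg x) (by linarith)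
    nlinarith
  by_contra hcon
  push Not at hcon
  have := mul_lt_mul_of_pos_right hcon h1
  linarith

lemma norm_fac {p : ℕ} (hp : p.Prime) (θ : ℝ) (s : ℂ) (hs : s.re = -(1 / 2)) :
    ‖1 - cexp (2 * Real.pi * I * θ) * (p : ℂ) ^ s‖ ≤ 2 := by
  have h3 : (2 * Real.pi * I * θ : ℂ) = ((2 * Real.pi * θ : ℝ) : ℂ) * I := by push_cast; ring
  calc ‖1 - cexp (2 * Real.pi * I * θ) * (p : ℂ) ^ s‖
      ≤ ‖(1 : ℂ)‖ + ‖cexp (2 * Real.pi * I * θ) * (p : ℂ) ^ s‖ := norm_sub_le _ _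
    _ ≤ 1 + 1 := by
        rw [norm_one, norm_mul, h3, Complex.norm_exp_ofReal_mul_I, one_mul,
          Complex.norm_natCast_cpow_of_pos hp.pos, hs]
        have : (p : ℝ) ^ (-(1 / 2) : ℝ) ≤ 1 :=
          Real.rpow_le_one_of_one_le_of_nonpos (by exact_mod_cast hp.one_lt.le) (by norm_num)
        linarith
    _ = 2 := by norm_num

/-- a lower bound, uniform in the prime -/
def b0 (n : ℕ) : ℝ := (1 / 2) ^ (n + 4) * (1 / (16 * 4 ^ n))

lemma b0_pos (n : ℕ) : 0 < b0 n := by unfold b0; positivity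

lemma loc_b0 {n p : ℕ} (hp : p.Prime) (c : Fin n → ℝ) : b0 n ≤ loc c p := by
  have hp2 : (2 : ℝ) ≤ p := by exact_mod_cast hp.two_le
  have hp0 : (p : ℂ) ≠ 0 := by exact_mod_cast hp.ne_zero
  unfold b0 loc
  have h1 : (1 / 2 : ℝ) ≤ 1 - 1 / (p : ℝ) := by
    have : 1 / (p : ℝ) ≤ 1 / 2 := one_div_le_one_div_of_le (by norm_num) hp2
    linarith
  have hne : ∀ (θ : ℝ) (s : ℂ), s.re = -(1 / 2) → 0 < ‖1 - cexp (2 * Real.pi * I * θ) * (p : ℂ) ^ s‖ :=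
    fun θ s hs => norm_pos_iff.mpr (loc_ne hp.two_le θ s hs)
  have hden : ∀ θ : ℝ, 0 < (‖1 - cexp (2 * Real.pi * I * θ) * (p : ℂ) ^ (-(1 / 2) : ℂ)‖ ^ 4 *
      ∏ j, ‖1 - cexp (2 * Real.pi * I * θ) * (p : ℂ) ^ (-(1 / 2 + I * c j))‖ ^ 2) := by
    intro θ
    refine mul_pos (pow_pos (hne θ _ (by norm_num)) _) (Finset.prod_pos fun j _ =>
      pow_pos (hne θ _ (by simp)) _)
  have hcont : Continuous fun θ : ℝ => 1 / (‖1 - cexp (2 * Real.pi * I * θ) * (p : ℂ) ^ (-(1 / 2) : ℂ)‖ ^ 4 *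
      ∏ j, ‖1 - cexp (2 * Real.pi * I * θ) * (p : ℂ) ^ (-(1 / 2 + I * c j))‖ ^ 2) := by
    refine continuous_const.div ?_ fun θ => (hden θ).ne'
    fun_prop
  have h2 : (1 / (16 * 4 ^ n) : ℝ) ≤ ∫ θ in (0:ℝ)..1,
      1 / (‖1 - cexp (2 * Real.pi * I * θ) * (p : ℂ) ^ (-(1 / 2) : ℂ)‖ ^ 4 *
        ∏ j, ‖1 - cexp (2 * Real.pi * I * θ) * (p : ℂ) ^ (-(1 / 2 + I * c j))‖ ^ 2) := by
    have h3 : ∫ _θ in (0:ℝ)..1, (1 / (16 * 4 ^ n) : ℝ) = 1 / (16 * 4 ^ n) := by simp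
    rw [← h3]
    refine intervalIntegral.integral_mono_on (by norm_num) (by simp)
      (hcont.intervalIntegrable _ _) fun θ _ => ?_
    apply one_div_le_one_div_of_le (hden θ)
    refine mul_le_mul ?_ ?_ (Finset.prod_nonneg fun j _ => by positivity) (by norm_num)
    · calc ‖1 - cexp (2 * Real.pi * I * θ) * (p : ℂ) ^ (-(1 / 2) : ℂ)‖ ^ 4 ≤ 2 ^ 4 :=
            pow_le_pow_left₀ (norm_nonneg _) (norm_fac hp θ _ (by norm_num)) 4
        _ = 16 := by norm_num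
    · calc ∏ j, ‖1 - cexp (2 * Real.pi * I * θ) * (p : ℂ) ^ (-(1 / 2 + I * c j))‖ ^ 2
          ≤ ∏ _j : Fin n, (4 : ℝ) := by
            refine Finset.prod_le_prod (fun j _ => by positivity) fun j _ => ?_
            calc _ ≤ (2 : ℝ) ^ 2 := pow_le_pow_left₀ (norm_nonneg _) (norm_fac hp θ _ (by simp)) 2
              _ = 4 := by norm_num
        _ = 4 ^ n := by simp
  exact mul_le_mul (pow_le_pow_left₀ (by norm_num) h1 _) h2 (by positivity)
    (pow_nonneg (by linarith) _)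

/-- **the local density is bounded below by the exponential of its first terms** -/
theorem loc_exp (h : S_LOC) (n : ℕ) : ∃ C1 : ℝ, 0 ≤ C1 ∧ ∀ p : ℕ, p.Prime → ∀ c : Fin n → ℝ,
    Real.exp (Ap p c - C1 / (p : ℝ) ^ 2) ≤ loc c p := by
  set κ : ℝ := ((K2 n).card : ℝ) with hκ
  have hκ0 : 0 ≤ κ := Nat.cast_nonneg _
  have hC0 := C0_nonneg n
  set P0 : ℝ := 6 * κ + 2 * C0 n + 2 with hP0
  have hP0' : 0 < P0 := by positivity
  set C1 : ℝ := C0 n + 2 * (3 * κ + C0 n) ^ 2 + 2 + P0 ^ 2 * (3 * κ + |Real.log (b0 n)|) with hC1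
  have hC1' : 0 ≤ C1 := by positivity
  refine ⟨C1, hC1', fun p hp c => ?_⟩
  have hp2 : (2 : ℝ) ≤ p := by exact_mod_cast hp.two_le
  have hp0 : (0 : ℝ) < p := by linarith
  have hA := Ap_bd hp c
  rw [← hκ] at hA
  rcases le_total (p : ℝ) P0 with hle | hge
  · refine le_trans ?_ (loc_b0 hp c)
    rw [← Real.le_log_iff_exp_le (b0_pos n)]
    have h1 : 3 * κ + |Real.log (b0 n)| ≤ C1 / (p : ℝ) ^ 2 := by
      rw [le_div_iff₀ (by positivity)]
      have h2 : (p : ℝ) ^ 2 ≤ P0 ^ 2 := pow_le_pow_left₀ hp0.le hle 2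
      have h3 : (3 * κ + |Real.log (b0 n)|) * (p : ℝ) ^ 2 ≤ (3 * κ + |Real.log (b0 n)|) * P0 ^ 2 :=
        mul_le_mul_of_nonneg_left h2 (by positivity)
      have h4 : 0 ≤ C0 n + 2 * (3 * κ + C0 n) ^ 2 + 2 := by positivity
      rw [hC1]
      linarith
    have h5 : Ap p c ≤ 3 * κ := by
      refine (le_abs_self _).trans (hA.trans ?_)
      have : (3 : ℝ) / p ≤ 3 := div_le_self (by norm_num) (by linarith)
      calc κ * (3 / p) ≤ κ * 3 := mul_le_mul_of_nonneg_left this hκ0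
        _ = 3 * κ := by ring
    have h6 := neg_abs_le (Real.log (b0 n))
    linarith
  · refine le_trans ?_ (loc_low h hp c)
    set x : ℝ := Ap p c - C0 n / (p : ℝ) ^ 2 with hx
    have hxa : |x| ≤ (3 * κ + C0 n) / p := by
      have h1 : C0 n / (p : ℝ) ^ 2 ≤ C0 n / p := by
        apply div_le_div_of_nonneg_left hC0 hp0
        nlinarith
      have h2 : 0 ≤ C0 n / (p : ℝ) ^ 2 := by positivity
      calc |x| ≤ |Ap p c| + |C0 n / (p : ℝ) ^ 2| := abs_sub _ _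
        _ ≤ κ * (3 / p) + C0 n / p := by rw [abs_of_nonneg h2]; exact add_le_add hA h1
        _ = (3 * κ + C0 n) / p := by ring
    have hx2 : x ^ 2 ≤ (3 * κ + C0 n) ^ 2 / (p : ℝ) ^ 2 := by
      rw [← sq_abs x, ← div_pow]
      exact pow_le_pow_left₀ (abs_nonneg _) hxa 2
    have hxl : -(1 / 2) ≤ x := by
      have h1 : (3 * κ + C0 n) / p ≤ 1 / 2 := by
        rw [div_le_iff₀ hp0]
        linarith
      have := (abs_le.mp (hxa.trans h1)).1
      linarith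
    have e1 := exp_low hxl
    have hq : 1 / (p : ℝ) ^ 2 ≤ 1 / 4 := by
      apply one_div_le_one_div_of_le (by norm_num)
      nlinarith
    have hq0 : 0 < 1 / (p : ℝ) ^ 2 := by positivity
    have e2 := exp_low (x := -(1 / (p : ℝ) ^ 2)) (by linarith)
    have e3 : Real.exp (-(2 * (1 / (p : ℝ) ^ 2))) ≤ 1 - 1 / (p : ℝ) ^ 2 := by
      refine le_trans (Real.exp_le_exp.mpr ?_) (e2.trans (le_of_eq (by ring)))
      nlinarith
    have e4 : Real.exp (Ap p c - C1 / (p : ℝ) ^ 2) ≤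
        Real.exp (-(2 * (1 / (p : ℝ) ^ 2))) * Real.exp (x - 2 * x ^ 2) := by
      rw [← Real.exp_add]
      apply Real.exp_le_exp.mpr
      have h1 : C1 / (p : ℝ) ^ 2 = C0 n / (p : ℝ) ^ 2 + 2 * ((3 * κ + C0 n) ^ 2 / (p : ℝ) ^ 2) +
          2 * (1 / (p : ℝ) ^ 2) + P0 ^ 2 * (3 * κ + |Real.log (b0 n)|) / (p : ℝ) ^ 2 := by
        rw [hC1]; ring
      have h2 : 0 ≤ P0 ^ 2 * (3 * κ + |Real.log (b0 n)|) / (p : ℝ) ^ 2 := by positivity
      rw [h1]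
      linarith
    refine e4.trans ?_
    have e5 : 0 ≤ 1 - 1 / (p : ℝ) ^ 2 := by linarith
    calc Real.exp (-(2 * (1 / (p : ℝ) ^ 2))) * Real.exp (x - 2 * x ^ 2)
        ≤ (1 - 1 / (p : ℝ) ^ 2) * (1 + x) := mul_le_mul e3 e1 (Real.exp_pos _).le e5
      _ = (1 - 1 / (p : ℝ) ^ 2) * (1 + Ap p c - C0 n / (p : ℝ) ^ 2) := by rw [hx]; ring

end

end Pool.Agent.Y781.SX
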